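import Pool.Agent.W23.PL.Defs
import Pool.Agent.H442R2.BX.Bk

/-!
PL project, task BXB (helper2): one block of the Bessel inequality, preliminaries.
-/

set_option autoImplicit false

namespace Pool.Agent.U2.PL

open Finset
open Pool.Agent.H442R2
open Pool.Agent.H442R2.KF
open Pool.Agent.W23.DC
open Pool.Agent.W23.PL

lemma xx_nonneg (P : Finset ℕ) (m : ℤ) : 0 ≤ xx P m := by
  unfold xx; split_ifs <;> norm_num

lemma xx_le_one (P : Finset ℕ) (m : ℤ) : xx P m ≤ 1 := by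
  unfold xx; split_ifs <;> norm_num

lemma xx_sq (P : Finset ℕ) (m : ℤ) : xx P m * xx P m = xx P m := by
  unfold xx; split_ifs <;> norm_num

lemma Ev_abs {P : Finset ℕ} {D : ℕ} {U : ℝ} {th : ℕ → ℝ} (h : DW P D U th) (m : ℤ) :
    |Ev th D m| ≤ D * U := by
  unfold Ev
  refine (abs_sum_le_sum_abs _ _).trans ?_
  have h0 : 0 ≤ U := (abs_nonneg _).trans (h.bd 0)
  refine (sum_le_card_nsmul _ _ U (fun e _ => ?_)).trans ?_
  · split_ifs
    · rw [mul_one]; exact h.bd e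
    · rw [mul_zero, abs_zero]; exact h0
  · rw [nsmul_eq_mul, Nat.card_Icc]
    simp

lemma dl_abs {d : ℕ} (hd : 1 ≤ d) (m : ℤ) : |BX.dl d m| ≤ 1 := by
  unfold BX.dl
  have h1 : (1 : ℝ) ≤ d := by exact_mod_cast hd
  have h2 : 0 ≤ 1 / (d : ℝ) := by positivity
  have h3 : 1 / (d : ℝ) ≤ 1 := by
    rw [div_le_one (by linarith)]; exact h1
  split_ifs <;> rw [abs_le] <;> constructor <;> linarith

lemma rf_abs {y : ℝ} {X : ℕ} {c : ℕ → ℝ} (h : BX.CofR y X c) (a n : ℤ) :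
    |BX.rf c X a n| ≤ X := by
  unfold BX.rf
  split_ifs
  · simp
  unfold BX.Rf
  refine (abs_sum_le_sum_abs _ _).trans ?_
  refine (sum_le_card_nsmul _ _ 1 (fun e he => ?_)).trans ?_
  · rw [abs_mul]
    rw [mem_Icc] at he
    calc |c e| * |BX.dl e (n - a)| ≤ 1 * 1 :=
          mul_le_mul (h.bd e) (dl_abs he.1 _) (abs_nonneg _) zero_le_one
      _ = 1 := one_mul 1
  · rw [nsmul_eq_mul, Nat.card_Icc]
    simp

/-- the indicator of one -/
noncomputable def on (e : ℕ) : ℝ := if e = 1 then 1 else 0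

lemma DW_on {P : Finset ℕ} {D : ℕ} {U : ℝ} (hD : 1 ≤ D) (hU : 1 ≤ U) : DW P D U on where
  bd e := by
    unfold on
    split_ifs
    · rw [abs_one]; exact hU
    · rw [abs_zero]; linarith
  supp e he := by
    unfold on at he
    have h1 : e = 1 := by
      by_contra h
      rw [if_neg h] at he
      exact he rfl
    subst h1
    refine ⟨squarefree_one, hD, ?_⟩
    intro p hp h1
    exact absurd (Nat.dvd_one.1 h1) hp.ne_one

lemma Ev_on {D : ℕ} (hD : 1 ≤ D) (m : ℤ) : Ev on D m = 1 := by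
  unfold Ev
  rw [sum_eq_single 1]
  · simp [on]
  · intro b _ hb
    simp [on, hb]
  · intro h
    exact absurd (mem_Icc.2 ⟨le_rfl, hD⟩) h

lemma hat_on {D : ℕ} (hD : 1 ≤ D) : hat on D = 1 := by
  unfold hat
  rw [sum_eq_single 1]
  · simp [on]
  · intro b _ hb
    simp [on, hb]
  · intro h
    exact absurd (mem_Icc.2 ⟨le_rfl, hD⟩) h

lemma LF_nonneg (lam : ℕ → ℝ) (z : ℕ) : 0 ≤ LF lam z := by
  have h : LF lam z = ∑ k ∈ Icc 1 z, (Nat.totient k : ℝ) *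
      (∑ q ∈ Icc 1 z, if k ∣ q then lam q / q else 0) ^ 2 := by
    have h1 : ∀ q₁ ∈ Icc 1 z, ∀ q₂ ∈ Icc 1 z, lam q₁ * lam q₂ / (Nat.lcm q₁ q₂ : ℝ) =
        ∑ k ∈ Icc 1 z, (Nat.totient k : ℝ) * ((if k ∣ q₁ then lam q₁ / q₁ else 0) *
          (if k ∣ q₂ then lam q₂ / q₂ else 0)) := by
      intro q₁ hq₁ q₂ hq₂
      rw [mem_Icc] at hq₁ hq₂
      have e1 : (0 : ℝ) < q₁ := by exact_mod_cast hq₁.1
      have e2 : (0 : ℝ) < q₂ := by exact_mod_cast hq₂.1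
      have hg : ((Nat.gcd q₁ q₂ : ℕ) : ℝ) * (Nat.lcm q₁ q₂ : ℕ) = q₁ * q₂ := by
        exact_mod_cast Nat.gcd_mul_lcm q₁ q₂
      have hl : (0 : ℝ) < (Nat.lcm q₁ q₂ : ℕ) := by
        exact_mod_cast Nat.lcm_pos hq₁.1 hq₂.1
      have hgs : ((Nat.gcd q₁ q₂ : ℕ) : ℝ) = ∑ k ∈ Icc 1 z, if (k ∣ q₁ ∧ k ∣ q₂) then
          (Nat.totient k : ℝ) else 0 := by
        have h2 := Nat.sum_totient (Nat.gcd q₁ q₂)
        have h3 : (Nat.gcd q₁ q₂).divisors = (Icc 1 z).filter (fun k => k ∣ q₁ ∧ k ∣ q₂) := by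
          ext k
          rw [Nat.mem_divisors, mem_filter, mem_Icc, Nat.dvd_gcd_iff]
          constructor
          · rintro ⟨h, -⟩
            exact ⟨⟨Nat.pos_of_dvd_of_pos h.1 hq₁.1, (Nat.le_of_dvd hq₁.1 h.1).trans hq₁.2⟩, h⟩
          · rintro ⟨-, h⟩
            exact ⟨h, (Nat.gcd_pos_of_pos_left _ hq₁.1).ne'⟩
        rw [← sum_filter, ← h3]
        exact_mod_cast h2.symm
      have h4 : lam q₁ * lam q₂ / (Nat.lcm q₁ q₂ : ℕ) =
          (Nat.gcd q₁ q₂ : ℕ) * (lam q₁ / q₁ * (lam q₂ / q₂)) := by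
        rw [div_eq_iff hl.ne']
        have : (Nat.gcd q₁ q₂ : ℕ) * (lam q₁ / q₁ * (lam q₂ / q₂)) * (Nat.lcm q₁ q₂ : ℕ) =
            ((Nat.gcd q₁ q₂ : ℕ) * (Nat.lcm q₁ q₂ : ℕ)) * (lam q₁ / q₁ * (lam q₂ / q₂)) := by ring
        rw [this, hg]
        field_simp
      rw [h4, hgs, sum_mul]
      refine sum_congr rfl fun k _ => ?_
      by_cases a1 : k ∣ q₁ <;> by_cases a2 : k ∣ q₂ <;> simp [a1, a2]
    unfold LF
    rw [sum_congr rfl fun q₁ hq₁ => sum_congr rfl fun q₂ hq₂ => h1 q₁ hq₁ q₂ hq₂]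
    rw [sum_congr rfl fun q₁ _ => sum_comm, sum_comm]
    refine sum_congr rfl fun k _ => ?_
    rw [sq, sum_mul_sum, mul_sum]
    refine sum_congr rfl fun q₁ _ => ?_
    rw [mul_sum]
  rw [h]
  exact sum_nonneg fun k _ => mul_nonneg (Nat.cast_nonneg _) (sq_nonneg _)

lemma VV_nonneg {P : Finset ℕ} (hP : ∀ p ∈ P, p.Prime) : 0 ≤ VV P := by
  unfold VV
  refine prod_nonneg fun p hp => ?_
  have h1 : (1 : ℝ) ≤ p := by exact_mod_cast (hP p hp).one_le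
  rw [sub_nonneg, div_le_one (by linarith)]
  exact h1

lemma VV_le_one {P : Finset ℕ} (hP : ∀ p ∈ P, p.Prime) : VV P ≤ 1 := by
  unfold VV
  refine prod_le_one (fun p hp => ?_) (fun p hp => ?_)
  · have h1 : (1 : ℝ) ≤ p := by exact_mod_cast (hP p hp).one_le
    rw [sub_nonneg, div_le_one (by linarith)]
    exact h1
  · have : 0 ≤ 1 / (p : ℝ) := by positivity
    linarith

lemma summ {M : ℕ} (hM : 1 ≤ M) {g : ℤ → ℝ} (K : ℝ) (hg : ∀ n, |g n| ≤ K) :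
    Summable (fun n : ℤ => Wt M n * g n) := by
  refine Summable.of_norm_bounded ((TaskS.summable_Wt M hM).mul_right K) fun n => ?_
  rw [Real.norm_eq_abs, abs_mul, abs_of_pos (show 0 < Wt M n from Real.exp_pos _)]
  exact mul_le_mul_of_nonneg_left (hg n) (Real.exp_pos _).le

lemma nu_abs {z : ℕ} {lam : ℕ → ℝ} (h : BX.SW z lam) (n : ℤ) : |BX.nuS lam z n| ≤ (z : ℝ) ^ 2 := by
  rw [abs_of_nonneg (show 0 ≤ BX.nuS lam z n from sq_nonneg _)]
  exact BX.TaskBK.nu_le h n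

lemma nu_nonneg (z : ℕ) (lam : ℕ → ℝ) (n : ℤ) : 0 ≤ BX.nuS lam z n := sq_nonneg _

end Pool.Agent.U2.PL
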