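import Pool.Agent.U2.PL.A1

/-!
PL project, task BXB (helper2): the diagonal and the off-diagonal estimates.
-/

set_option autoImplicit false

namespace Pool.Agent.U2.PL

open Finset
open Pool.Agent.H442R2
open Pool.Agent.H442R2.KF
open Pool.Agent.W23.DC
open Pool.Agent.W23.PL

lemma pt {N : ℕ} (hN : 1 ≤ N) (hGS : BX.St_GS) {E r r' : ℝ} {n : ℤ}
    (h1 : |r| ≤ E * (1 + |(n : ℝ)| / N) ^ (1 / 4 : ℝ))
    (h2 : |r'| ≤ E * (1 + |(n : ℝ)| / N) ^ (1 / 4 : ℝ)) :
    Wt N n * (|r| * |r'|) ≤ 2 * E ^ 2 * Wt (2 * N) n := by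
  have hN0 : (0 : ℝ) < N := by exact_mod_cast hN
  obtain ⟨t, ht⟩ : ∃ t : ℝ, t = 1 + |(n : ℝ)| / N := ⟨_, rfl⟩
  have ht1 : 1 ≤ t := by
    rw [ht]
    have : 0 ≤ |(n : ℝ)| / N := by positivity
    linarith
  have ht0 : 0 < t := by linarith
  rw [← ht] at h1 h2
  have h3 := (hGS N hN).1 n
  rw [← ht] at h3
  have hW : 0 < Wt N n := Real.exp_pos _
  have h4 : |r| * |r'| ≤ E ^ 2 * t := by
    have h5 : 0 < t ^ (1 / 4 : ℝ) := Real.rpow_pos_of_pos ht0 _
    have hE : 0 ≤ E := by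
      by_contra h
      push Not at h
      have := abs_nonneg r
      nlinarith
    calc |r| * |r'| ≤ (E * t ^ (1 / 4 : ℝ)) * (E * t ^ (1 / 4 : ℝ)) :=
          mul_le_mul h1 h2 (abs_nonneg _) (by positivity)
      _ = E ^ 2 * (t ^ (1 / 4 : ℝ) * t ^ (1 / 4 : ℝ)) := by ring
      _ = E ^ 2 * t ^ (1 / 4 + 1 / 4 : ℝ) := by rw [Real.rpow_add ht0]
      _ ≤ E ^ 2 * t ^ (1 : ℝ) := by
          gcongr
          norm_num
      _ = E ^ 2 * t := by rw [Real.rpow_one]
  calc Wt N n * (|r| * |r'|) ≤ Wt N n * (E ^ 2 * t) := by gcongr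
    _ = E ^ 2 * (Wt N n * t) := by ring
    _ ≤ E ^ 2 * (2 * Wt (2 * N) n) := by gcongr
    _ = _ := by ring

lemma G_est {N z D X : ℕ} (hN : 1 ≤ N) (hGS : BX.St_GS) (hD : 1 ≤ D) {lam : ℕ → ℝ}
    (hlam : SWs z lam) {P : Finset ℕ} {U : ℝ} {th : ℕ → ℝ} (hth : DW P D U th)
    (hx : ∀ m, xx P m ≤ Ev th D m) {y E : ℝ} {c : ℕ → ℝ} (hc : BX.CofR y X c) {a : ℤ}
    (hrf : ∀ n : ℤ, |BX.rf c X a n| ≤ E * (1 + |(n : ℝ)| / N) ^ (1 / 4 : ℝ)) (a' : ℤ) :
    ∑' n : ℤ, Wt N n * BX.nuS lam z n *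
      ((xx P (n - a) * BX.rf c X a n) * (xx P (n - a) * BX.rf c X a n)) ≤
    2 * E ^ 2 * ∑' n : ℤ, Wt (2 * N) n * BX.nuS lam z n * (Ev th D (n - a) * Ev on D (n - a')) := by
  rw [← tsum_mul_left]
  have hU : 0 ≤ U := (abs_nonneg _).trans (hth.bd 0)
  refine Summable.tsum_le_tsum (fun n => ?_) ?_ ?_
  · rw [Ev_on hD, mul_one]
    have h1 := pt hN hGS (hrf n) (hrf n)
    have h2 : (xx P (n - a) * BX.rf c X a n) * (xx P (n - a) * BX.rf c X a n) =
        xx P (n - a) * (|BX.rf c X a n| * |BX.rf c X a n|) := by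
      rw [abs_mul_abs_self]
      have := xx_sq P (n - a)
      linear_combination (BX.rf c X a n * BX.rf c X a n) * this
    rw [h2]
    have h3 := nu_nonneg z lam n
    have h4 := xx_nonneg P (n - a)
    have h5 := hx (n - a)
    have h6 : 0 < Wt (2 * N) n := Real.exp_pos _
    calc Wt N n * BX.nuS lam z n * (xx P (n - a) * (|BX.rf c X a n| * |BX.rf c X a n|))
        = BX.nuS lam z n * xx P (n - a) * (Wt N n * (|BX.rf c X a n| * |BX.rf c X a n|)) := by ring
      _ ≤ BX.nuS lam z n * xx P (n - a) * (2 * E ^ 2 * Wt (2 * N) n) := by gcongr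
      _ ≤ BX.nuS lam z n * Ev th D (n - a) * (2 * E ^ 2 * Wt (2 * N) n) := by gcongr
      _ = _ := by ring
  · have := summ hN (g := fun n => BX.nuS lam z n *
      ((xx P (n - a) * BX.rf c X a n) * (xx P (n - a) * BX.rf c X a n)))
      ((z : ℝ) ^ 2 * ((1 * X) * (1 * X))) (fun n => by
        rw [abs_mul, abs_mul, abs_mul]
        have h1 := nu_abs hlam.sw n
        have h2 := rf_abs hc a n
        have h3 : |xx P (n - a)| ≤ 1 := by
          rw [abs_of_nonneg (xx_nonneg _ _)]; exact xx_le_one _ _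
        gcongr)
    simpa only [mul_assoc] using this
  · have := (summ (M := 2 * N) (by omega) (g := fun n => BX.nuS lam z n *
      (Ev th D (n - a) * Ev on D (n - a')))
      ((z : ℝ) ^ 2 * ((D * U) * 1)) (fun n => by
        rw [abs_mul, abs_mul, Ev_on hD, abs_one]
        have h1 := nu_abs hlam.sw n
        have h2 := Ev_abs hth (n - a)
        gcongr)).mul_left (2 * E ^ 2)
    simpa only [mul_assoc] using this

lemma O_est {N z D X : ℕ} (hN : 1 ≤ N) (hGS : BX.St_GS) {lam : ℕ → ℝ}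
    (hlam : SWs z lam) {P : Finset ℕ} {U : ℝ} {th dt : ℕ → ℝ} (hth : DW P D U th)
    (hdt : DW P D U dt) (hx : ∀ m, xx P m ≤ Ev th D m ∧ Ev th D m - xx P m ≤ Ev dt D m)
    {y E : ℝ} {c c' : ℕ → ℝ} (hc : BX.CofR y X c) (hc' : BX.CofR y X c') {a a' : ℤ}
    (hrf : ∀ n : ℤ, |BX.rf c X a n| ≤ E * (1 + |(n : ℝ)| / N) ^ (1 / 4 : ℝ))
    (hrf' : ∀ n : ℤ, |BX.rf c' X a' n| ≤ E * (1 + |(n : ℝ)| / N) ^ (1 / 4 : ℝ)) :
    |∑' n : ℤ, Wt N n * BX.nuS lam z n *
      ((xx P (n - a) * BX.rf c X a n) * (xx P (n - a') * BX.rf c' X a' n))| ≤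
    |∑' n : ℤ, Wt N n * BX.nuS lam z n * (Ev th D (n - a) * Ev th D (n - a')) *
      (BX.rf c X a n * BX.rf c' X a' n)| +
    2 * E ^ 2 * (∑' n : ℤ, Wt (2 * N) n * BX.nuS lam z n * (Ev dt D (n - a) * Ev th D (n - a')) +
      ∑' n : ℤ, Wt (2 * N) n * BX.nuS lam z n * (Ev th D (n - a) * Ev dt D (n - a'))) := by
  have hU : 0 ≤ U := (abs_nonneg _).trans (hth.bd 0)
  have hxa : ∀ m, |xx P m| ≤ 1 := fun m => by
    rw [abs_of_nonneg (xx_nonneg _ _)]; exact xx_le_one _ _
  -- summability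
  have s1 : Summable (fun n : ℤ => Wt N n * BX.nuS lam z n *
      ((xx P (n - a) * BX.rf c X a n) * (xx P (n - a') * BX.rf c' X a' n))) := by
    have := summ hN (g := fun n => BX.nuS lam z n *
      ((xx P (n - a) * BX.rf c X a n) * (xx P (n - a') * BX.rf c' X a' n)))
      ((z : ℝ) ^ 2 * ((1 * X) * (1 * X))) (fun n => by
        rw [abs_mul, abs_mul, abs_mul, abs_mul]
        have h1 := nu_abs hlam.sw n
        have h2 := rf_abs hc a n
        have h3 := rf_abs hc' a' n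
        have h4 := hxa (n - a)
        have h5 := hxa (n - a')
        gcongr)
    simpa only [mul_assoc] using this
  have s2 : Summable (fun n : ℤ => Wt N n * BX.nuS lam z n * (Ev th D (n - a) * Ev th D (n - a')) *
      (BX.rf c X a n * BX.rf c' X a' n)) := by
    have := summ hN (g := fun n => BX.nuS lam z n * (Ev th D (n - a) * Ev th D (n - a')) *
      (BX.rf c X a n * BX.rf c' X a' n))
      ((z : ℝ) ^ 2 * ((D * U) * (D * U)) * ((X : ℝ) * X)) (fun n => by
        rw [abs_mul, abs_mul, abs_mul, abs_mul]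
        have h1 := nu_abs hlam.sw n
        have h2 := rf_abs hc a n
        have h3 := rf_abs hc' a' n
        have h4 := Ev_abs hth (n - a)
        have h5 := Ev_abs hth (n - a')
        gcongr)
    simpa only [mul_assoc] using this
  have s3 : ∀ {u v : ℕ → ℝ}, DW P D U u → DW P D U v → Summable (fun n : ℤ =>
      Wt (2 * N) n * BX.nuS lam z n * (Ev u D (n - a) * Ev v D (n - a'))) := by
    intro u v hu hv
    have := summ (M := 2 * N) (by omega) (g := fun n => BX.nuS lam z n *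
      (Ev u D (n - a) * Ev v D (n - a')))
      ((z : ℝ) ^ 2 * ((D * U) * (D * U))) (fun n => by
        rw [abs_mul, abs_mul]
        have h1 := nu_abs hlam.sw n
        have h4 := Ev_abs hu (n - a)
        have h5 := Ev_abs hv (n - a')
        gcongr)
    simpa only [mul_assoc] using this
  have s4 := (s3 hdt hth).add (s3 hth hdt)
  have key : |∑' n : ℤ, (Wt N n * BX.nuS lam z n * (Ev th D (n - a) * Ev th D (n - a')) *
      (BX.rf c X a n * BX.rf c' X a' n) - Wt N n * BX.nuS lam z n *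
      ((xx P (n - a) * BX.rf c X a n) * (xx P (n - a') * BX.rf c' X a' n)))| ≤
      2 * E ^ 2 * (∑' n : ℤ, Wt (2 * N) n * BX.nuS lam z n * (Ev dt D (n - a) * Ev th D (n - a')) +
      ∑' n : ℤ, Wt (2 * N) n * BX.nuS lam z n * (Ev th D (n - a) * Ev dt D (n - a'))) := by
    rw [← (s3 hdt hth).tsum_add (s3 hth hdt), ← tsum_mul_left]
    have s5 := s2.sub s1
    refine (norm_tsum_le_tsum_norm s5.norm).trans ?_
    refine Summable.tsum_le_tsum (fun n => ?_) s5.norm (s4.mul_left _)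
    rw [Real.norm_eq_abs]
    have e1 : Wt N n * BX.nuS lam z n * (Ev th D (n - a) * Ev th D (n - a')) *
      (BX.rf c X a n * BX.rf c' X a' n) - Wt N n * BX.nuS lam z n *
      ((xx P (n - a) * BX.rf c X a n) * (xx P (n - a') * BX.rf c' X a' n)) =
      BX.nuS lam z n * (Ev th D (n - a) * Ev th D (n - a') - xx P (n - a) * xx P (n - a')) *
        (Wt N n * (BX.rf c X a n * BX.rf c' X a' n)) := by ring
    have hW : 0 < Wt N n := Real.exp_pos _
    have hW2 : 0 < Wt (2 * N) n := Real.exp_pos _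
    have hν := nu_nonneg z lam n
    obtain ⟨b1, b2⟩ := hx (n - a)
    obtain ⟨b3, b4⟩ := hx (n - a')
    have b5 := xx_nonneg P (n - a)
    have b6 := xx_nonneg P (n - a')
    have c1 : 0 ≤ Ev th D (n - a) * Ev th D (n - a') - xx P (n - a) * xx P (n - a') := by
      have := mul_le_mul b1 b3 b6 (b5.trans b1)
      linarith
    have c2 : Ev th D (n - a) * Ev th D (n - a') - xx P (n - a) * xx P (n - a') ≤
        Ev dt D (n - a) * Ev th D (n - a') + Ev th D (n - a) * Ev dt D (n - a') := by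
      have d1 : (Ev th D (n - a) - xx P (n - a)) * Ev th D (n - a') ≤
          Ev dt D (n - a) * Ev th D (n - a') :=
        mul_le_mul_of_nonneg_right b2 (b6.trans b3)
      have d2 : xx P (n - a) * (Ev th D (n - a') - xx P (n - a')) ≤
          Ev th D (n - a) * Ev dt D (n - a') :=
        mul_le_mul b1 b4 (by linarith) (b5.trans b1)
      nlinarith
    rw [e1, abs_mul, abs_mul, abs_mul, abs_mul, abs_of_nonneg hν, abs_of_nonneg c1, abs_of_pos hW]
    have h1 := pt hN hGS (hrf n) (hrf' n)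
    calc BX.nuS lam z n * (Ev th D (n - a) * Ev th D (n - a') - xx P (n - a) * xx P (n - a')) *
          (Wt N n * (|BX.rf c X a n| * |BX.rf c' X a' n|))
        ≤ BX.nuS lam z n * (Ev dt D (n - a) * Ev th D (n - a') + Ev th D (n - a) * Ev dt D (n - a')) *
          (2 * E ^ 2 * Wt (2 * N) n) := by
          gcongr
          exact mul_nonneg hν (c1.trans c2)
      _ = _ := by ring
  rw [s2.tsum_sub s1] at key
  have := abs_sub_abs_le_abs_sub
    (∑' n : ℤ, Wt N n * BX.nuS lam z n *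
      ((xx P (n - a) * BX.rf c X a n) * (xx P (n - a') * BX.rf c' X a' n)))
    (∑' n : ℤ, Wt N n * BX.nuS lam z n * (Ev th D (n - a) * Ev th D (n - a')) *
      (BX.rf c X a n * BX.rf c' X a' n))
  rw [abs_sub_comm] at this
  linarith

end Pool.Agent.U2.PL
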