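import Pool.Agent.U2.PL.A1

/-!
PL project, task BXB (helper2): numbers.
-/

set_option autoImplicit false

namespace Pool.Agent.U2.PL

open Finset Filter

lemma ev1 (K : ℝ) : ∀ᶠ N : ℕ in atTop, K ≤ Real.log N :=
  (Real.tendsto_log_atTop.comp tendsto_natCast_atTop_atTop).eventually_ge_atTop K

lemma ev1' (K : ℝ) : ∀ᶠ N : ℕ in atTop, K ≤ Real.log (Real.log N) :=
  (Real.tendsto_log_atTop.comp
    (Real.tendsto_log_atTop.comp tendsto_natCast_atTop_atTop)).eventually_ge_atTop K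

lemma ev2 (k : ℕ) {a κ : ℝ} (ha : 0 < a) (hκ : 0 < κ) :
    ∀ᶠ N : ℕ in atTop, Real.log N ^ k ≤ κ * (N : ℝ) ^ a := by
  have h := (isLittleO_log_rpow_rpow_atTop (k : ℝ) ha).bound hκ
  have h2 := tendsto_natCast_atTop_atTop (R := ℝ) |>.eventually h
  filter_upwards [h2, ev1 0] with N hN h0
  rw [Real.norm_eq_abs, Real.norm_eq_abs, Real.rpow_natCast,
    abs_of_nonneg (pow_nonneg h0 k), abs_of_nonneg (Real.rpow_nonneg (Nat.cast_nonneg N) a)] at hN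
  exact hN

lemma ev3 {a K : ℝ} (ha : 0 < a) : ∀ᶠ N : ℕ in atTop, K ≤ (N : ℝ) ^ a :=
  ((tendsto_rpow_atTop ha).comp
    (tendsto_natCast_atTop_atTop (R := ℝ))).eventually_ge_atTop K

lemma ev_err {C κ : ℝ} (hC : 0 < C) (hκ : 0 < κ) {B : ℕ} (hB : 40 ≤ B) :
    ∀ᶠ N : ℕ in atTop, C * Real.log N ^ 2 *
      (((2 * N : ℕ) : ℝ) * Real.log ((2 * N : ℕ) : ℝ) ^ 20 / Real.log N ^ B + 1) ≤
      κ * (N / Real.log N ^ 3) := by
  filter_upwards [ev1 1, ev1 (2 ^ 22 * C / κ), ev2 5 one_pos (show 0 < κ / (2 * C) by positivity),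
    eventually_ge_atTop 2] with N h1 h2 h3 h4
  obtain ⟨L, hL⟩ : ∃ L : ℝ, L = Real.log N := ⟨_, rfl⟩
  obtain ⟨x, hx⟩ : ∃ x : ℝ, x = (N : ℝ) := ⟨_, rfl⟩
  have hx2 : 2 ≤ x := by rw [hx]; exact_mod_cast h4
  rw [Real.rpow_one] at h3
  have hlog : Real.log ((2 * N : ℕ) : ℝ) ≤ 2 * L := by
    push_cast
    rw [Real.log_mul (by norm_num) (by positivity), hL]
    have : Real.log 2 ≤ Real.log N := Real.log_le_log (by norm_num) (by exact_mod_cast h4)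
    linarith
  have hlog0 : 0 ≤ Real.log ((2 * N : ℕ) : ℝ) := Real.log_natCast_nonneg _
  push_cast at hlog hlog0 ⊢
  rw [← hx] at hlog hlog0 h3 ⊢
  have hLx : Real.log x = L := by rw [hL, hx]
  rw [hLx] at h3 ⊢
  rw [← hL] at h1 h2
  have hL0 : 0 < L := by linarith
  have hpow : L ^ 40 ≤ L ^ B := pow_le_pow_right₀ h1 hB
  have a1 : 2 * x * Real.log (2 * x) ^ 20 / L ^ B ≤ 2 ^ 21 * x / L ^ 20 := by
    calc 2 * x * Real.log (2 * x) ^ 20 / L ^ B ≤ 2 * x * (2 * L) ^ 20 / L ^ 40 := by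
          gcongr
      _ = 2 ^ 21 * x / L ^ 20 := by
          field_simp
  have a2 : C * L ^ 2 * (2 ^ 21 * x / L ^ 20) ≤ κ / 2 * (x / L ^ 3) := by
    have b1 : 2 ^ 22 * C / κ ≤ L ^ 15 := h2.trans (by
      calc L = L ^ 1 := (pow_one L).symm
        _ ≤ L ^ 15 := pow_le_pow_right₀ h1 (by norm_num))
    rw [div_le_iff₀ hκ] at b1
    have b2 : C * L ^ 2 * (2 ^ 21 * x / L ^ 20) = (2 ^ 22 * C) * (x / (2 * L ^ 18)) := by
      field_simp
    rw [b2]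
    calc (2 ^ 22 * C) * (x / (2 * L ^ 18)) ≤ (L ^ 15 * κ) * (x / (2 * L ^ 18)) := by gcongr
      _ = κ / 2 * (x / L ^ 3) := by
          field_simp
  have a3 : C * L ^ 2 ≤ κ / 2 * (x / L ^ 3) := by
    have b1 : L ^ 5 * (2 * C) ≤ κ * x := by
      calc L ^ 5 * (2 * C) ≤ (κ / (2 * C) * x) * (2 * C) := by gcongr
        _ = κ * x := by field_simp
    rw [mul_div_assoc', le_div_iff₀ (by positivity)]
    nlinarith
  calc C * L ^ 2 * (2 * x * Real.log (2 * x) ^ 20 / L ^ B + 1)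
      ≤ C * L ^ 2 * (2 ^ 21 * x / L ^ 20 + 1) := by gcongr
    _ = C * L ^ 2 * (2 ^ 21 * x / L ^ 20) + C * L ^ 2 := by ring
    _ ≤ κ / 2 * (x / L ^ 3) + κ / 2 * (x / L ^ 3) := add_le_add a2 a3
    _ = κ * (x / L ^ 3) := by ring

lemma ev_pow {C κ η : ℝ} (hC : 0 < C) (hκ : 0 < κ) (hη : 0 < η) :
    ∀ᶠ N : ℕ in atTop, C * (N : ℝ) ^ (1 - η) ≤ κ * (N / Real.log N ^ 3) := by
  filter_upwards [ev1 1, ev2 3 hη (show 0 < κ / C by positivity), eventually_ge_atTop 2] with N h1 h2 h3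
  have hN : (0 : ℝ) < N := by
    have : 0 < N := by omega
    exact_mod_cast this
  have hL : 0 < Real.log N := by linarith
  rw [mul_div_assoc', le_div_iff₀ (by positivity)]
  calc C * (N : ℝ) ^ (1 - η) * Real.log N ^ 3 ≤ C * (N : ℝ) ^ (1 - η) * (κ / C * (N : ℝ) ^ η) := by
        gcongr
    _ = κ * ((N : ℝ) ^ (1 - η) * (N : ℝ) ^ η) := by field_simp
    _ = κ * N := by
        rw [← Real.rpow_add hN, sub_add_cancel, Real.rpow_one]

lemma ev_sq {C κ η : ℝ} (hC : 0 < C) (hκ : 0 < κ) (hη : 0 < η) :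
    ∀ᶠ N : ℕ in atTop, 2 * (C * (N : ℝ) ^ (1 - η)) ^ 2 ≤
      κ * ((N / Real.log N) ^ 2 * (1 / Real.log N ^ 2)) := by
  filter_upwards [ev1 1, ev2 2 hη (show 0 < Real.sqrt (κ / 2) / C by positivity),
    eventually_ge_atTop 2] with N h1 h2 h3
  have hN : (0 : ℝ) < N := by
    have : 0 < N := by omega
    exact_mod_cast this
  have hL : 0 < Real.log N := by linarith
  have h4 : C * (N : ℝ) ^ (1 - η) * Real.log N ^ 2 ≤ Real.sqrt (κ / 2) * N := by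
    calc C * (N : ℝ) ^ (1 - η) * Real.log N ^ 2 ≤
        C * (N : ℝ) ^ (1 - η) * (Real.sqrt (κ / 2) / C * (N : ℝ) ^ η) := by
          gcongr
      _ = Real.sqrt (κ / 2) * ((N : ℝ) ^ (1 - η) * (N : ℝ) ^ η) := by field_simp
      _ = Real.sqrt (κ / 2) * N := by
          rw [← Real.rpow_add hN, sub_add_cancel, Real.rpow_one]
  have h5 : (C * (N : ℝ) ^ (1 - η) * Real.log N ^ 2) ^ 2 ≤ κ / 2 * N ^ 2 := by
    calc (C * (N : ℝ) ^ (1 - η) * Real.log N ^ 2) ^ 2 ≤ (Real.sqrt (κ / 2) * N) ^ 2 := by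
          gcongr
      _ = κ / 2 * N ^ 2 := by
          rw [mul_pow, Real.sq_sqrt (by positivity)]
  have h6 : κ * ((N / Real.log N) ^ 2 * (1 / Real.log N ^ 2)) = κ * N ^ 2 / Real.log N ^ 4 := by
    field_simp
  rw [h6, le_div_iff₀ (by positivity)]
  nlinarith

lemma expb {e : ℝ} (he : 0 < e) (he' : e ≤ 1 / 20) :
    ((42500 / e) * (128 / e + 5) + 1) * Real.exp (-(10 / e)) ≤ 1 := by
  obtain ⟨s, hs⟩ : ∃ s : ℝ, s = 1 / e := ⟨_, rfl⟩
  have hs20 : 20 ≤ s := by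
    rw [hs, le_div_iff₀ he]
    linarith
  have h1 : Real.exp (-(10 / e)) = (Real.exp (10 * s))⁻¹ := by
    rw [← Real.exp_neg]
    congr 1
    rw [hs]
    ring
  have h2 : s ^ 10 ≤ Real.exp (10 * s) := by
    have h3 : s ≤ Real.exp s := by linarith [Real.add_one_le_exp s]
    calc s ^ 10 ≤ Real.exp s ^ 10 := pow_le_pow_left₀ (by linarith) h3 10
      _ = Real.exp (10 * s) := by
          rw [← Real.exp_nat_mul]
          norm_num
  have h4 : (20 : ℝ) ^ 8 * s ^ 2 ≤ s ^ 10 := by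
    calc (20 : ℝ) ^ 8 * s ^ 2 ≤ s ^ 8 * s ^ 2 := by gcongr
      _ = s ^ 10 := by ring
  have h5 : (42500 / e) * (128 / e + 5) + 1 = (42500 * s) * (128 * s + 5) + 1 := by
    rw [hs]
    ring
  rw [h1, h5, ← div_eq_mul_inv, div_le_one (Real.exp_pos _)]
  refine le_trans ?_ (h4.trans h2)
  nlinarith

/-- the final computation -/
lemma num {x L e V A₀ c₁ LF err ht hd OF G O F SY Sa c E2 : ℝ} (hx : 0 < x) (hL : 1 ≤ L)
    (he : 0 < e) (he' : e ≤ 1 / 20) (hV0 : 0 ≤ V) (hV1 : V ≤ 1) (hV : 1 / L ≤ V) (hc₁ : 0 < c₁)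
    (hLF0 : 0 ≤ LF) (hLF : LF ≤ 8 / (e * L)) (herr0 : 0 ≤ err)
    (herr : err ≤ Real.exp (-((A₀ + 4 * c₁ + 10) / e)) * (x / L ^ 3))
    (hA : 0 < A₀)
    (hht : |ht| ≤ 2 * V) (hhd : |hd| ≤ Real.exp (-((A₀ + 4 * c₁ + 10) / e)) * V)
    (hOF : OF ≤ Real.exp (-((A₀ + 10) / e)) * (x / L ^ 3))
    (hG : G = 2 * Real.exp (4 * c₁ / e) * (2 * x * LF * |ht| + err))
    (hO : O = OF + 2 * Real.exp (4 * c₁ / e) * (2 * (2 * x * LF * (|hd| * |ht|) + err)))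
    (hO0 : 0 ≤ O)
    (hF : F ≤ 50 * (2 * x * LF + err)) (hc : 0 ≤ c)
    (hSY : SY ≤ 25 * F * (G + c * O))
    (hE2 : 2 * E2 ≤ Real.exp (-((A₀ + 10) / e)) * ((x / L) ^ 2 * (1 / L ^ 2)))
    (hSa : Sa ≤ 2 * SY + c * (2 * E2)) :
    Sa ≤ (x / L) ^ 2 * ((42500 / e * (2 * Real.exp (4 * c₁ / e) * (32 / e + 1))) * V +
      Real.exp (-(A₀ / e)) * V ^ 2 * c) := by
  obtain ⟨ρ, hρ⟩ : ∃ ρ : ℝ, ρ = Real.exp (-((A₀ + 4 * c₁ + 10) / e)) := ⟨_, rfl⟩
  obtain ⟨Q, hQ⟩ : ∃ Q : ℝ, Q = Real.exp (4 * c₁ / e) := ⟨_, rfl⟩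
  obtain ⟨R, hR⟩ : ∃ R : ℝ, R = Real.exp (-((A₀ + 10) / e)) := ⟨_, rfl⟩
  obtain ⟨T, hT⟩ : ∃ T : ℝ, T = Real.exp (-(A₀ / e)) := ⟨_, rfl⟩
  have hQρ : Q * ρ = R := by
    rw [hQ, hρ, hR, ← Real.exp_add]
    congr 1
    ring
  have hRT : R = T * Real.exp (-(10 / e)) := by
    rw [hT, hR, ← Real.exp_add]
    congr 1
    ring
  have hρ0 : 0 < ρ := by rw [hρ]; exact Real.exp_pos _
  have hρ1 : ρ ≤ 1 := by
    rw [hρ]
    apply Real.exp_le_one_iff.2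
    have : 0 < (A₀ + 4 * c₁ + 10) / e := by positivity
    linarith
  have hQ0 : 0 < Q := by rw [hQ]; exact Real.exp_pos _
  have hR0 : 0 < R := by rw [hR]; exact Real.exp_pos _
  have hT0 : 0 < T := by rw [hT]; exact Real.exp_pos _
  rw [← hρ] at herr hhd
  rw [← hR] at hOF hE2
  rw [← hQ] at hG hO
  rw [← hQ, ← hT]
  have hL0 : 0 < L := by linarith
  obtain ⟨y, hy⟩ : ∃ y : ℝ, y = x / L := ⟨_, rfl⟩
  have hy0 : 0 < y := by rw [hy]; positivity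
  have hV2 : 1 / L ^ 2 ≤ V ^ 2 := by
    have : 1 / L ^ 2 = (1 / L) ^ 2 := by rw [div_pow, one_pow]
    rw [this]
    exact pow_le_pow_left₀ (by positivity) hV 2
  have hx3 : x / L ^ 3 ≤ y * V ^ 2 := by
    have : x / L ^ 3 = y * (1 / L ^ 2) := by
      rw [hy]
      field_simp
    rw [this]
    gcongr
  have hxLF : 2 * x * LF ≤ 16 / e * y := by
    calc 2 * x * LF ≤ 2 * x * (8 / (e * L)) := by gcongr
      _ = 16 / e * y := by
          rw [hy]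
          field_simp
          ring
  have hxLF0 : 0 ≤ 2 * x * LF := by positivity
  have herr' : err ≤ ρ * (y * V ^ 2) := herr.trans (by gcongr)
  have hV21 : V ^ 2 ≤ V := by nlinarith
  have hG' : G ≤ 2 * Q * (32 / e + 1) * V * y := by
    rw [hG]
    have h1 : 2 * x * LF * |ht| ≤ 16 / e * y * (2 * V) := by gcongr
    have h2 : err ≤ V * y := by
      calc err ≤ ρ * (y * V ^ 2) := herr'
        _ ≤ 1 * (y * V) := by gcongr
        _ = V * y := by ring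
    calc 2 * Q * (2 * x * LF * |ht| + err) ≤ 2 * Q * (16 / e * y * (2 * V) + V * y) := by gcongr
      _ = 2 * Q * (32 / e + 1) * V * y := by ring
  have hO' : O ≤ R * V ^ 2 * y * (128 / e + 5) := by
    rw [hO]
    have h1 : 2 * x * LF * (|hd| * |ht|) ≤ 16 / e * y * ((ρ * V) * (2 * V)) := by gcongr
    have h2 : OF ≤ R * (y * V ^ 2) := hOF.trans (by gcongr)
    calc OF + 2 * Q * (2 * (2 * x * LF * (|hd| * |ht|) + err))
        ≤ R * (y * V ^ 2) + 2 * Q * (2 * (16 / e * y * ((ρ * V) * (2 * V)) + ρ * (y * V ^ 2))) := by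
          gcongr
      _ = R * (y * V ^ 2) + (Q * ρ) * (y * V ^ 2) * (128 / e + 4) := by ring
      _ = R * V ^ 2 * y * (128 / e + 5) := by
          rw [hQρ]
          ring
  have hF' : F ≤ 850 / e * y := by
    refine hF.trans ?_
    have h2 : err ≤ 1 / e * y := by
      calc err ≤ ρ * (y * V ^ 2) := herr'
        _ ≤ 1 * (y * 1) := by
            gcongr
            exact hV21.trans hV1
        _ = 1 * y := by ring
        _ ≤ 1 / e * y := by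
            gcongr
            rw [le_div_iff₀ he]
            linarith
    calc 50 * (2 * x * LF + err) ≤ 50 * (16 / e * y + 1 / e * y) := by gcongr
      _ = 850 / e * y := by ring
  have hSY' : SY ≤ 25 * (850 / e * y) * (2 * Q * (32 / e + 1) * V * y +
      c * (R * V ^ 2 * y * (128 / e + 5))) := by
    refine hSY.trans ?_
    have hG0 : 0 ≤ G := by
      rw [hG]
      positivity
    gcongr
  have hE2' : 2 * E2 ≤ R * (y ^ 2 * V ^ 2) := by
    refine hE2.trans ?_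
    rw [← hy]
    gcongr
  have hb := expb he he'
  have hR' : ((42500 / e) * (128 / e + 5) + 1) * R ≤ T := by
    rw [hRT]
    calc ((42500 / e) * (128 / e + 5) + 1) * (T * Real.exp (-(10 / e)))
        = T * (((42500 / e) * (128 / e + 5) + 1) * Real.exp (-(10 / e))) := by ring
      _ ≤ T * 1 := by gcongr
      _ = T := mul_one T
  rw [← hy]
  calc Sa ≤ 2 * SY + c * (2 * E2) := hSa
    _ ≤ 2 * (25 * (850 / e * y) * (2 * Q * (32 / e + 1) * V * y +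
      c * (R * V ^ 2 * y * (128 / e + 5)))) + c * (R * (y ^ 2 * V ^ 2)) := by gcongr
    _ = y ^ 2 * ((42500 / e * (2 * Q * (32 / e + 1))) * V +
      (((42500 / e) * (128 / e + 5) + 1) * R) * V ^ 2 * c) := by ring
    _ ≤ y ^ 2 * ((42500 / e * (2 * Q * (32 / e + 1))) * V + T * V ^ 2 * c) := by gcongr

end Pool.Agent.U2.PL
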