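import Pool.Agent.U2.PL.A2
import Pool.Agent.U2.PL.A3

/-!
PL project, task BXB (helper2): one block of the Bessel inequality.
-/

set_option autoImplicit false

namespace Pool.Agent.U2.PL

open Finset Filter
open Pool.Agent.H442R2
open Pool.Agent.H442R2.KF
open Pool.Agent.W23.DC
open Pool.Agent.W23.PL

theorem BXB (hFLW : St_FLW) (hCOR : St_COR) (hPBX : St_PBX) (hOFD : St_OFD) (hVLB : St_VLB)
    (hDU : BX.St_DU) (hPR : BX.St_PR) (hWXS : St_WXS) (hGS : BX.St_GS) : St_BXB := by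
  intro θ δ A₀ hθ hθ' hδ hA₀
  obtain ⟨ε₀, η₀, hε₀, hη₀, hη₀', ofd⟩ := hOFD θ δ hθ hθ' hδ
  obtain ⟨c₁, hc₁, pbx⟩ := hPBX
  obtain ⟨C₃, N3, hC₃, cor⟩ := hCOR
  obtain ⟨c₂, hc₂, vlb⟩ := hVLB
  obtain ⟨εf, hεf, flw⟩ := hFLW η₀ (A₀ + 4 * c₁ + 10) hη₀ (by positivity)
  refine ⟨ε₀, min εf (2 * η₀), hε₀, lt_min hεf (by linarith), ?_⟩
  intro e he hee
  have hef : e ≤ εf := hee.trans (min_le_left _ _)
  have heη : e ≤ 2 * η₀ := hee.trans (min_le_right _ _)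
  have he20 : e ≤ 1 / 20 := by linarith
  obtain ⟨η, C₂, hη, hC₂, ofd⟩ := ofd e he (by linarith)
  obtain ⟨N4, C₄, hC₄, pr⟩ := hPR (e / 2) (by linarith)
  obtain ⟨N5, pbx⟩ := pbx (e / 2) (by linarith) (by linarith)
  refine ⟨42500 / e * (2 * Real.exp (4 * c₁ / e) * (32 / e + 1)), by positivity, ?_⟩
  intro B hB
  obtain ⟨N6, flw⟩ := flw e he hef B (by omega)
  obtain ⟨N7, vlb⟩ := vlb B (by omega) e he (by linarith)
  have ev : ∀ᶠ N : ℕ in atTop, (3 ≤ Real.log N) ∧ (2 ≤ (N : ℝ) ^ (e / 4)) ∧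
      (e / (c₂ * B) ≤ Real.log (Real.log N)) ∧
      (C₃ * Real.log N ^ 2 *
        (((2 * N : ℕ) : ℝ) * Real.log ((2 * N : ℕ) : ℝ) ^ 20 / Real.log N ^ B + 1) ≤
        Real.exp (-((A₀ + 4 * c₁ + 10) / e)) * (N / Real.log N ^ 3)) ∧
      (C₂ * (N : ℝ) ^ (1 - η) ≤ Real.exp (-((A₀ + 10) / e)) * (N / Real.log N ^ 3)) ∧
      (2 * ((3 * C₄) * (N : ℝ) ^ (1 - e / 4)) ^ 2 ≤
        Real.exp (-((A₀ + 10) / e)) * ((N / Real.log N) ^ 2 * (1 / Real.log N ^ 2))) ∧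
      2 ≤ N ∧ N3 ≤ N ∧ N4 ≤ N ∧ N5 ≤ N ∧ N6 ≤ N ∧ N7 ≤ N := by
    filter_upwards [ev1 3, ev3 (K := 2) (show 0 < e / 4 by positivity), ev1' (e / (c₂ * B)),
      ev_err hC₃ (Real.exp_pos (-((A₀ + 4 * c₁ + 10) / e))) hB,
      ev_pow hC₂ (Real.exp_pos (-((A₀ + 10) / e))) hη,
      ev_sq (show 0 < 3 * C₄ by positivity) (Real.exp_pos (-((A₀ + 10) / e)))
        (show 0 < e / 4 by positivity),
      eventually_ge_atTop (2 + N3 + N4 + N5 + N6 + N7)] with N h1 h2 h3 h4 h5 h6 h7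
    exact ⟨h1, h2, h3, h4, h5, h6, by omega, by omega, by omega, by omega, by omega, by omega⟩
  obtain ⟨N₀, hN₀⟩ := eventually_atTop.1 ev
  refine ⟨N₀, ?_⟩
  intro N D0 X hN hXθ hD0 hXD f hf 𝒜 hA T hT
  obtain ⟨e1, e2, e3, e4, e5, e6, hN2, hn3, hn4, hn5, hn6, hn7⟩ := hN₀ N hN
  obtain ⟨L, hL⟩ : ∃ L : ℝ, L = Real.log N := ⟨_, rfl⟩
  have hNr : (2 : ℝ) ≤ N := by exact_mod_cast hN2
  have hN0 : (0 : ℝ) < N := by linarith
  have hN1 : (1 : ℝ) ≤ N := by linarith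
  have hN1' : 1 ≤ N := by omega
  have hL3 : 3 ≤ L := by rw [hL]; exact e1
  have hLB : L ≤ L ^ B := by
    calc L = L ^ 1 := (pow_one L).symm
      _ ≤ L ^ B := pow_le_pow_right₀ (by linarith) (by omega)
  -- the parameters
  obtain ⟨g, hg⟩ : ∃ g : ℝ, g = (N : ℝ) ^ (e / 4) := ⟨_, rfl⟩
  rw [← hg] at e2
  have hgg : (N : ℝ) ^ (e / 2) = g * g := by
    rw [hg, ← Real.rpow_add hN0]
    congr 1
    ring
  obtain ⟨z, hz⟩ : ∃ z : ℕ, z = ⌊(N : ℝ) ^ (e / 2)⌋₊ := ⟨_, rfl⟩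
  have hz1 : (z : ℝ) ≤ (N : ℝ) ^ (e / 2) := by
    rw [hz]
    exact Nat.floor_le (Real.rpow_nonneg hN0.le _)
  have hz2 : (N : ℝ) ^ (e / 2) < z + 1 := by
    rw [hz]
    exact Nat.lt_floor_add_one _
  have hgz : g ≤ z := by
    rw [hgg] at hz2
    nlinarith
  have hz3 : 2 ≤ z := by
    have : (2 : ℝ) ≤ z := e2.trans hgz
    exact_mod_cast this
  have hz4 : (z : ℝ) ≤ (N : ℝ) ^ η₀ :=
    hz1.trans (Real.rpow_le_rpow_of_exponent_le hN1 (by linarith))
  have hz5 : (z : ℝ) < (N : ℝ) ^ e :=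
    lt_of_le_of_lt hz1 (Real.rpow_lt_rpow_of_exponent_lt (by linarith) (by linarith))
  have hlz : e / 4 * L ≤ Real.log z := by
    rw [hL, ← Real.log_rpow hN0, ← hg]
    exact Real.log_le_log (by linarith) hgz
  have hlz0 : 0 < Real.log z := lt_of_lt_of_le (by positivity) hlz
  obtain ⟨D, hD⟩ : ∃ D : ℕ, D = ⌊(N : ℝ) ^ η₀⌋₊ := ⟨_, rfl⟩
  have hD1 : (D : ℝ) ≤ (N : ℝ) ^ η₀ := by
    rw [hD]
    exact Nat.floor_le (Real.rpow_nonneg hN0.le _)
  have hD2 : 1 ≤ D := by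
    rw [hD, Nat.one_le_floor_iff]
    exact Real.one_le_rpow hN1 hη₀.le
  have h20 : (N : ℝ) ^ η₀ ≤ ((2 * N : ℕ) : ℝ) ^ (1 / 20 : ℝ) := by
    calc (N : ℝ) ^ η₀ ≤ (N : ℝ) ^ (1 / 20 : ℝ) :=
          Real.rpow_le_rpow_of_exponent_le hN1 (by linarith)
      _ ≤ ((2 * N : ℕ) : ℝ) ^ (1 / 20 : ℝ) := by
          apply Real.rpow_le_rpow hN0.le _ (by norm_num)
          push_cast
          linarith
  obtain ⟨lam, hlam⟩ := hWXS z hz3
  obtain ⟨P, hP⟩ : ∃ P : Finset ℕ, P = P1 N B e := ⟨_, rfl⟩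
  have hPm : ∀ p ∈ P, p.Prime ∧ L ^ B ≤ (p : ℝ) ∧ (p : ℝ) < (N : ℝ) ^ e := by
    intro p hp
    rw [hP] at hp
    unfold P1 at hp
    rw [mem_filter] at hp
    refine ⟨hp.2.1, hL ▸ hp.2.2.1, ?_⟩
    have h1 := hp.2.2.2
    unfold tt at h1
    rw [div_lt_iff₀ (by rw [← hL]; linarith)] at h1
    have hp0 : (0 : ℝ) < p := by exact_mod_cast hp.2.1.pos
    rw [← Real.log_rpow hN0] at h1
    exact (Real.log_lt_log_iff hp0 (Real.rpow_pos_of_pos hN0 _)).1 h1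
  obtain ⟨V, hV⟩ : ∃ V : ℝ, V = VV P := ⟨_, rfl⟩
  have hV0 : 0 ≤ V := by rw [hV]; exact VV_nonneg fun p hp => (hPm p hp).1
  have hV1 : V ≤ 1 := by rw [hV]; exact VV_le_one fun p hp => (hPm p hp).1
  have hVL : 1 / L ≤ V := by
    have h1 := (vlb N hn7).1
    rw [← hP, ← hV, ← hL] at h1
    refine le_trans ?_ h1
    rw [← hL] at e3
    have hB0 : (0 : ℝ) < B := by
      have : 0 < B := by omega
      exact_mod_cast this
    have h2 : e ≤ c₂ * B * Real.log L := by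
      rw [div_le_iff₀ (by positivity)] at e3
      linarith
    have hL0 : 0 < L := by linarith
    have h3 : c₂ * (B * Real.log L / (e * L)) = (c₂ * B * Real.log L) / (e * L) := by ring
    rw [h3, div_le_div_iff₀ hL0 (by positivity), one_mul]
    exact mul_le_mul_of_nonneg_right h2 hL0.le
  obtain ⟨th, dt, hth, hdt, hxx, hhat, hhatd⟩ := flw N hn6 D hD
  rw [← hP, ← hL] at hth hdt
  rw [← hP] at hxx
  rw [← hP, ← hV] at hhat hhatd
  obtain ⟨ρ, hρ⟩ : ∃ ρ : ℝ, ρ = Real.exp (-((A₀ + 4 * c₁ + 10) / e)) := ⟨_, rfl⟩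
  have hρ1 : ρ ≤ 1 := by
    rw [hρ]
    apply Real.exp_le_one_iff.2
    have : 0 < (A₀ + 4 * c₁ + 10) / e := by positivity
    linarith
  have hht : |hat th D| ≤ 2 * V := by
    rw [← hρ] at hhat
    have h1 := abs_sub_abs_le_abs_sub (hat th D) V
    rw [abs_of_nonneg hV0] at h1
    have h2 : ρ * V ≤ 1 * V := mul_le_mul_of_nonneg_right hρ1 hV0
    linarith
  have hLF0 : 0 ≤ LF lam z := LF_nonneg lam z
  have hLF : LF lam z ≤ 8 / (e * L) := by
    have h1 := hlam.sw.form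
    have h2 : LF lam z ≤ 2 / Real.log z := h1
    refine h2.trans ?_
    rw [div_le_div_iff₀ hlz0 (by positivity)]
    linarith
  obtain ⟨err, herr⟩ : ∃ err : ℝ, err = C₃ * L ^ 2 *
        (((2 * N : ℕ) : ℝ) * Real.log ((2 * N : ℕ) : ℝ) ^ 20 / L ^ B + 1) := ⟨_, rfl⟩
  have herr0 : 0 ≤ err := by
    rw [herr]
    have : 0 ≤ Real.log ((2 * N : ℕ) : ℝ) := Real.log_natCast_nonneg _
    positivity
  rw [← hL, ← herr] at e4
  -- correlations at 2N
  have hN2r : ((2 * N : ℕ) : ℝ) = 2 * N := by push_cast; ring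
  have cor2 : ∀ u v : ℕ → ℝ, DW P D L u → DW P D L v → ∀ a a' : ℤ, a ≠ 0 → a' ≠ 0 → a ≠ a' →
      |(a : ℝ)| ≤ 4 * N → |(a' : ℝ)| ≤ 4 * N →
      |∑' n : ℤ, Wt (2 * N) n * BX.nuS lam z n * (Ev u D (n - a) * Ev v D (n - a')) -
        2 * N * LF lam z * (hat u D * hat v D)| ≤ err := by
    intro u v hu hv a a' ha ha' haa h1 h2
    have := cor (2 * N) (by omega) z D (hz4.trans h20) (hD1.trans h20) lam hlam P (L ^ B)
      (by linarith) (fun p hp => ⟨(hPm p hp).1, (hPm p hp).2.1⟩) L u v (by linarith) hu hv a a'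
      ha ha' haa (by rw [hN2r]; linarith) (by rw [hN2r]; linarith)
    rw [← herr] at this
    rw [hN2r] at this
    exact this
  have hon : DW P D L on := DW_on hD2 (by linarith)
  obtain ⟨E, hE⟩ : ∃ E : ℝ, E = Real.exp (c₁ / (e / 2)) := ⟨_, rfl⟩
  have hE0 : 0 ≤ E := by rw [hE]; exact (Real.exp_pos _).le
  have hEE : E ^ 2 = Real.exp (4 * c₁ / e) := by
    rw [hE, ← Real.exp_nat_mul]
    congr 1
    push_cast
    field_simp
    ring
  have hXN' : (X : ℝ) ≤ (N : ℝ) ^ (1 - e / 4) :=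
    hXθ.trans (Real.rpow_le_rpow_of_exponent_le hN1 (by linarith))
  have hXN : X ≤ N := by
    have : (X : ℝ) ≤ N := hXN'.trans (by
      calc (N : ℝ) ^ (1 - e / 4) ≤ (N : ℝ) ^ (1 : ℝ) :=
            Real.rpow_le_rpow_of_exponent_le hN1 (by linarith)
        _ = N := Real.rpow_one _)
    exact_mod_cast this
  have hsqrt : (0 : ℝ) ≤ (N : ℝ) ^ (1 / 2 : ℝ) := Real.rpow_nonneg hN0.le _
  have haN : ∀ a ∈ 𝒜, |(a : ℝ)| ≤ N := fun a ha => (hA a ha).2.trans (by linarith)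
  -- the coefficients
  have hc : ∀ a : ℤ, ∃ c : ℕ → ℝ, a ∈ 𝒜 → (BX.CofR ((N : ℝ) ^ (e / 2)) X c ∧
      (∀ d, c d ≠ 0 → d ∈ T a) ∧
      ∑ d ∈ T a, |BX.Df (fun p => f p * xx P (p - a)) N a d| ≤
        |∑ p ∈ (Icc 1 N).filter (fun p => p.Prime ∧ z < p),
          f p * (xx P (p - a) * BX.rf c X a p)| +
          C₄ * (z + X + (N : ℝ) ^ (1 - e / 4))) := by
    intro a
    by_cases ha : a ∈ 𝒜
    · obtain ⟨c, h1, h2, h3⟩ := pr N z X hn4 hXN (fun p => f p * xx P (p - a))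
        (fun p => by
          rw [abs_mul, abs_of_nonneg (xx_nonneg P _)]
          have := hf p
          have h4 := xx_le_one P (p - a)
          have h5 := xx_nonneg P (p - a)
          nlinarith [abs_nonneg (f p)]) a (haN a ha) (T a)
        (fun d hd => by
          obtain ⟨b1, b2, b3, b4, -⟩ := hT a ha d hd
          refine ⟨b3, b1, ?_⟩
          intro p hp hpd
          have h4 := b4 p hp hpd
          unfold tt at h4
          have hp0 : (0 : ℝ) < p := by exact_mod_cast hp.pos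
          rw [← hL, le_div_iff₀ (by linarith), hL, ← Real.log_rpow hN0,
            Real.log_le_log_iff (Real.rpow_pos_of_pos hN0 _) hp0] at h4
          exact lt_of_lt_of_le (Real.rpow_lt_rpow_of_exponent_lt (by linarith) (by linarith)) h4)
      refine ⟨c, fun _ => ⟨h1, h2, ?_⟩⟩
      have e7 : (1 : ℝ) - e / 2 / 2 = 1 - e / 4 := by ring
      rw [e7] at h3
      refine h3.trans (le_of_eq ?_)
      have h9 : ∑ p ∈ (Icc 1 N).filter (fun p => p.Prime ∧ z < p),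
          (fun p : ℕ => f p * xx P (p - a)) p * BX.rf c X a p =
          ∑ p ∈ (Icc 1 N).filter (fun p => p.Prime ∧ z < p),
            f p * (xx P (p - a) * BX.rf c X a p) :=
        sum_congr rfl fun p _ => by simp only [mul_assoc]
      exact congrArg (fun t : ℝ => |t| + C₄ * (z + X + (N : ℝ) ^ (1 - e / 4))) h9
    · exact ⟨0, fun h => absurd h ha⟩
  choose c hc using hc
  have hrf : ∀ a ∈ 𝒜, ∀ n : ℤ, |BX.rf (c a) X a n| ≤ E * (1 + |(n : ℝ)| / N) ^ (1 / 4 : ℝ) := by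
    intro a ha n
    rw [hE]
    exact pbx N X hn5 hXN (c a) (hc a ha).1 a n (haN a ha)
  have hBl : ∀ a ∈ 𝒜, ∀ d, c a d ≠ 0 → Bl N θ δ e D0 X d :=
    fun a ha d hd => hT a ha d ((hc a ha).2.1 d hd)
  -- the second point
  have hG : ∀ a ∈ 𝒜, ∑' n : ℤ, (Wt N n * BX.nuS lam z n) *
      ((xx P (n - a) * BX.rf (c a) X a n) * (xx P (n - a) * BX.rf (c a) X a n)) ≤
      2 * Real.exp (4 * c₁ / e) * (2 * N * LF lam z * |hat th D| + err) := by
    intro a ha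
    obtain ⟨a', ha'0, ha', haa⟩ : ∃ a' : ℤ, a' ≠ 0 ∧ |(a' : ℝ)| ≤ 4 * N ∧ a ≠ a' := by
      by_cases h : a = 1
      · exact ⟨2, by norm_num, by rw [abs_of_pos (by norm_num)]; push_cast; linarith, by omega⟩
      · exact ⟨1, by norm_num, by rw [abs_of_pos (by norm_num)]; push_cast; linarith, h⟩
    refine (G_est hN1' hGS hD2 hlam hth (fun m => (hxx m).1) (hc a ha).1 (hrf a ha) a').trans ?_
    rw [hEE]
    have h1 := cor2 th on hth hon a a' (hA a ha).1 ha'0 haa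
      ((haN a ha).trans (by linarith)) ha'
    rw [hat_on hD2, mul_one] at h1
    have h2 := (abs_le.1 h1).2
    have h3 := le_abs_self (hat th D)
    have h4 : 2 * N * LF lam z * hat th D ≤ 2 * N * LF lam z * |hat th D| := by gcongr
    have h5 := Real.exp_pos (4 * c₁ / e)
    have h6 : ∑' n : ℤ, Wt (2 * N) n * BX.nuS lam z n * (Ev th D (n - a) * Ev on D (n - a')) ≤
      2 * N * LF lam z * |hat th D| + err := by linarith
    gcongr
  have hO : ∀ a ∈ 𝒜, ∀ a' ∈ 𝒜, a ≠ a' → |∑' n : ℤ, (Wt N n * BX.nuS lam z n) *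
      ((xx P (n - a) * BX.rf (c a) X a n) * (xx P (n - a') * BX.rf (c a') X a' n))| ≤
      C₂ * (N : ℝ) ^ (1 - η) + 2 * Real.exp (4 * c₁ / e) *
        (2 * (2 * N * LF lam z * (|hat dt D| * |hat th D|) + err)) := by
    intro a ha a' ha' haa
    refine (O_est hN1' hGS hlam hth hdt hxx (hc a ha).1 (hc a' ha').1 (hrf a ha)
      (hrf a' ha')).trans ?_
    rw [hEE]
    have hpos : ∀ m : ℤ, 0 ≤ Ev th D m := fun m => (xx_nonneg P m).trans (hxx m).1
    have h0 := ofd N z D D0 X hN2 hz4 hz5 hD1 hXθ hD0 hXD lam hlam P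
      (fun p hp => ⟨(hPm p hp).1, by
        have := (hPm p hp).2.1
        have h3 : (3 : ℝ) ≤ p := hL3.trans (hLB.trans this)
        have h4 : 3 ≤ p := by exact_mod_cast h3
        omega, (hPm p hp).2.2⟩) th th (hL ▸ hth) (hL ▸ hth) hpos hpos a a' (hA a ha).2
      (hA a' ha').2 (hA a ha).1 (hA a' ha').1 haa (c a) (c a') (hc a ha).1 (hc a' ha').1
      (hBl a ha) (hBl a' ha')
    have h1 := (abs_le.1 (cor2 dt th hdt hth a a' (hA a ha).1 (hA a' ha').1 haa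
      ((haN a ha).trans (by linarith)) ((haN a' ha').trans (by linarith)))).2
    have h2 := (abs_le.1 (cor2 th dt hth hdt a a' (hA a ha).1 (hA a' ha').1 haa
      ((haN a ha).trans (by linarith)) ((haN a' ha').trans (by linarith)))).2
    have h3 : hat dt D * hat th D ≤ |hat dt D| * |hat th D| := by
      rw [← abs_mul]; exact le_abs_self _
    have h4 : 2 * N * LF lam z * (hat dt D * hat th D) ≤
        2 * N * LF lam z * (|hat dt D| * |hat th D|) := by gcongr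
    have h5 := Real.exp_pos (4 * c₁ / e)
    have h6 : ∑' n : ℤ, Wt (2 * N) n * BX.nuS lam z n * (Ev dt D (n - a) * Ev th D (n - a')) ≤
      2 * N * LF lam z * (|hat dt D| * |hat th D|) + err := by linarith
    have h7 : ∑' n : ℤ, Wt (2 * N) n * BX.nuS lam z n * (Ev th D (n - a) * Ev dt D (n - a')) ≤
      2 * N * LF lam z * (|hat dt D| * |hat th D|) + err := by
      rw [mul_comm (hat th D) (hat dt D)] at h2
      linarith
    have h8 := add_le_add h6 h7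
    have h9 : 2 * Real.exp (4 * c₁ / e) * (∑' n : ℤ, Wt (2 * N) n * BX.nuS lam z n *
        (Ev dt D (n - a) * Ev th D (n - a')) + ∑' n : ℤ, Wt (2 * N) n * BX.nuS lam z n *
        (Ev th D (n - a) * Ev dt D (n - a'))) ≤ 2 * Real.exp (4 * c₁ / e) *
        (2 * (2 * N * LF lam z * (|hat dt D| * |hat th D|) + err)) := by
      gcongr
      linarith
    exact add_le_add h0 h9
  have hw25 : ∀ p ∈ (Icc 1 N).filter (fun p => p.Prime ∧ z < p),
      (1 : ℝ) ≤ 25 * (fun n : ℤ => Wt N n * BX.nuS lam z n) (p : ℤ) := by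
    intro p hp
    rw [mem_filter, mem_Icc] at hp
    exact BX.TaskBK.w_prime hlam.sw (by omega) hp.2.1 hp.2.2 hp.1.2
  obtain ⟨G, hGe⟩ : ∃ G : ℝ, G = 2 * Real.exp (4 * c₁ / e) *
      (2 * N * LF lam z * |hat th D| + err) := ⟨_, rfl⟩
  obtain ⟨O, hOe⟩ : ∃ O : ℝ, O = C₂ * (N : ℝ) ^ (1 - η) + 2 * Real.exp (4 * c₁ / e) *
        (2 * (2 * N * LF lam z * (|hat dt D| * |hat th D|) + err)) := ⟨_, rfl⟩
  have hG0 : 0 ≤ G := by rw [hGe]; positivity
  have hO0 : 0 ≤ O := by rw [hOe]; positivity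
  rw [← hGe] at hG
  rw [← hOe] at hO
  have hsum : ∀ a ∈ 𝒜, ∀ a' ∈ 𝒜, Summable (fun n : ℤ => (Wt N n * BX.nuS lam z n) *
      ((xx P (n - a) * BX.rf (c a) X a n) * (xx P (n - a') * BX.rf (c a') X a' n))) := by
    intro a ha a' ha'
    have := summ hN1' (g := fun n => BX.nuS lam z n *
      ((xx P (n - a) * BX.rf (c a) X a n) * (xx P (n - a') * BX.rf (c a') X a' n)))
      ((z : ℝ) ^ 2 * ((1 * X) * (1 * X))) (fun n => by
        rw [abs_mul, abs_mul, abs_mul, abs_mul]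
        have h1 := nu_abs hlam.sw n
        have h2 := rf_abs (hc a ha).1 a n
        have h3 := rf_abs (hc a' ha').1 a' n
        have h4 : |xx P (n - a)| ≤ 1 := by
          rw [abs_of_nonneg (xx_nonneg _ _)]; exact xx_le_one _ _
        have h5 : |xx P (n - a')| ≤ 1 := by
          rw [abs_of_nonneg (xx_nonneg _ _)]; exact xx_le_one _ _
        gcongr)
    simpa only [mul_assoc] using this
  have hdu := hDU (fun n : ℤ => Wt N n * BX.nuS lam z n)
    (fun n => BX.TaskBK.w_nonneg N z lam n)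
    ((Icc 1 N).filter (fun p => p.Prime ∧ z < p)) hw25 𝒜
    (fun a n => xx P (n - a) * BX.rf (c a) X a n) f hsum G O hG hG0 hO0 hO
  have hF : ∑ p ∈ (Icc 1 N).filter (fun p => p.Prime ∧ z < p), f p ^ 2 ≤
      50 * (2 * N * LF lam z + err) := by
    have h1 : ∑' n : ℤ, Wt (2 * N) n * BX.nuS lam z n ≤ 2 * N * LF lam z + err := by
      have h2 := (abs_le.1 (cor2 on on hon hon 1 2 (by norm_num) (by norm_num) (by norm_num)
        (by push_cast; rw [abs_one]; linarith)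
        (by push_cast; rw [abs_of_pos (by norm_num)]; linarith))).2
      simp only [Ev_on hD2, hat_on hD2, mul_one] at h2
      linarith
    have h2 : ∑ p ∈ (Icc 1 N).filter (fun p => p.Prime ∧ z < p),
        (Wt N (p : ℤ) * BX.nuS lam z (p : ℤ)) ≤ ∑' n : ℤ, Wt N n * BX.nuS lam z n := by
      have h3 := (BX.TaskBK.summ_w hN1' hlam.sw).sum_le_tsum
        (((Icc 1 N).filter (fun p => p.Prime ∧ z < p)).map
          ⟨(fun p : ℕ => (p : ℤ)), Nat.cast_injective⟩)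
        (fun n _ => BX.TaskBK.w_nonneg N z lam n)
      rw [sum_map] at h3
      exact h3
    have h3 : ∑' n : ℤ, Wt N n * BX.nuS lam z n ≤
        2 * ∑' n : ℤ, Wt (2 * N) n * BX.nuS lam z n := by
      rw [← tsum_mul_left]
      refine Summable.tsum_le_tsum (fun n => ?_) (BX.TaskBK.summ_w hN1' hlam.sw)
        ((BX.TaskBK.summ_w (by omega) hlam.sw).mul_left 2)
      have h4 := (hGS N hN1').1 n
      have h5 : 0 ≤ |(n : ℝ)| / N := by positivity
      have h6 : 0 < Wt N n := Real.exp_pos _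
      have h7 : Wt N n ≤ 2 * Wt (2 * N) n := by nlinarith
      have h8 := nu_nonneg z lam n
      calc Wt N n * BX.nuS lam z n ≤ (2 * Wt (2 * N) n) * BX.nuS lam z n := by gcongr
        _ = _ := by ring
    calc ∑ p ∈ (Icc 1 N).filter (fun p => p.Prime ∧ z < p), f p ^ 2
        ≤ ∑ p ∈ (Icc 1 N).filter (fun p => p.Prime ∧ z < p),
            25 * (Wt N (p : ℤ) * BX.nuS lam z (p : ℤ)) := by
          refine sum_le_sum fun p hp => le_trans ?_ (hw25 p hp)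
          rw [← sq_abs]
          exact pow_le_one₀ (abs_nonneg _) (hf p)
      _ = 25 * ∑ p ∈ (Icc 1 N).filter (fun p => p.Prime ∧ z < p),
            (Wt N (p : ℤ) * BX.nuS lam z (p : ℤ)) := by rw [mul_sum]
      _ ≤ 50 * (2 * N * LF lam z + err) := by
          have := h2.trans h3
          linarith
  obtain ⟨E', hE'⟩ : ∃ E' : ℝ, E' = C₄ * (z + X + (N : ℝ) ^ (1 - e / 4)) := ⟨_, rfl⟩
  have hE'0 : 0 ≤ E' := by rw [hE']; positivity
  have hE'1 : E' ≤ (3 * C₄) * (N : ℝ) ^ (1 - e / 4) := by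
    rw [hE']
    have h1 : (z : ℝ) ≤ (N : ℝ) ^ (1 - e / 4) :=
      hz1.trans (Real.rpow_le_rpow_of_exponent_le hN1 (by linarith))
    calc C₄ * (z + X + (N : ℝ) ^ (1 - e / 4)) ≤ C₄ * ((N : ℝ) ^ (1 - e / 4) +
          (N : ℝ) ^ (1 - e / 4) + (N : ℝ) ^ (1 - e / 4)) := by gcongr
      _ = (3 * C₄) * (N : ℝ) ^ (1 - e / 4) := by ring
  have hE2 : 2 * E' ^ 2 ≤ Real.exp (-((A₀ + 10) / e)) * ((N / L) ^ 2 * (1 / L ^ 2)) := by
    rw [← hL] at e6
    refine le_trans ?_ e6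
    have := pow_le_pow_left₀ hE'0 hE'1 2
    linarith
  have hSa : ∑ a ∈ 𝒜, (∑ d ∈ T a, |BX.Df (fun p => f p * xx P (p - a)) N a d|) ^ 2 ≤
      2 * (∑ a ∈ 𝒜, (∑ p ∈ (Icc 1 N).filter (fun p => p.Prime ∧ z < p),
        f p * (fun (a n : ℤ) => xx P (n - a) * BX.rf (c a) X a n) a p) ^ 2) +
        𝒜.card * (2 * E' ^ 2) := by
    calc ∑ a ∈ 𝒜, (∑ d ∈ T a, |BX.Df (fun p => f p * xx P (p - a)) N a d|) ^ 2
        ≤ ∑ a ∈ 𝒜, (2 * (∑ p ∈ (Icc 1 N).filter (fun p => p.Prime ∧ z < p),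
            f p * (fun (a n : ℤ) => xx P (n - a) * BX.rf (c a) X a n) a p) ^ 2 + 2 * E' ^ 2) := by
          refine sum_le_sum fun a ha => ?_
          have h1 := (hc a ha).2.2
          rw [← hE'] at h1
          have h2 : (∑ d ∈ T a, |BX.Df (fun p => f p * xx P (p - a)) N a d|) ^ 2 ≤
              (|∑ p ∈ (Icc 1 N).filter (fun p => p.Prime ∧ z < p),
                f p * (xx P (p - a) * BX.rf (c a) X a p)| + E') ^ 2 :=
            pow_le_pow_left₀ (sum_nonneg fun d _ => abs_nonneg _) h1 2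
          exact h2.trans (BX.TaskBK.two_sq _ _)
      _ = _ := by
          rw [sum_add_distrib, ← mul_sum, sum_const, nsmul_eq_mul]
  rw [← hL] at e5
  have hfin := num (A₀ := A₀) (c₁ := c₁) (x := N) (L := L) (e := e) (V := V) (LF := LF lam z)
    (err := err) (ht := hat th D) (hd := hat dt D) (OF := C₂ * (N : ℝ) ^ (1 - η)) (G := G) (O := O)
    hN0 (by linarith) he he20 hV0 hV1 hVL hc₁ hLF0 hLF herr0 e4 hA₀ hht hhatd e5
    hGe hOe hO0 hF (Nat.cast_nonneg 𝒜.card) hdu hE2 hSa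
  rw [← hP, ← hL, ← hV]
  exact hfin

end Pool.Agent.U2.PL
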